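import Mathlib
import Pool.Agent.H68R2.BP.Props2

/-!
# P_minrep: `B(H)` acting from the left and from the right on the Hilbert-Schmidt operators
-/

open scoped ComplexOrder InnerProductSpace ComplexConjugate Topology ENNReal
open Finset Filter

set_option linter.unusedSectionVars false

noncomputable section

namespace H68R2.BP

open H759R2.Kad H744R2.KZ

namespace P_minrepaux

variable {H κ : Type} [NormedAddCommGroup H] [InnerProductSpace ℂ H] [CompleteSpace H]

theorem mem_map (x : H →L[ℂ] H) (h : lp (fun _ : κ => H) 2) :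
    Memℓp (fun q => x (h q)) 2 :=
  Memℓp.mono ((lp.memℓp h).norm.const_mul ‖x‖) fun q => x.le_opNorm (h q)

/-- componentwise action -/
def lm (x : H →L[ℂ] H) : lp (fun _ : κ => H) 2 →L[ℂ] lp (fun _ : κ => H) 2 :=
  LinearMap.mkContinuous
    { toFun := fun h => ⟨fun q => x (h q), mem_map x h⟩
      map_add' := fun h h' => by
        apply lp.ext
        funext q
        exact map_add x (h q) (h' q)
      map_smul' := fun c h => by
        apply lp.ext
        funext q
        exact map_smul x c (h q) } ‖x‖ (by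
    intro h
    have h1 : ‖x‖ * ‖h‖ = ‖((‖x‖ : ℝ) : ℂ) • h‖ := by
      rw [norm_smul, Complex.norm_real, norm_norm]
    rw [h1]
    refine lp.norm_mono (by norm_num : (2 : ℝ≥0∞) ≠ 0) fun q => ?_
    change ‖x (h q)‖ ≤ ‖((‖x‖ : ℝ) : ℂ) • h q‖
    rw [norm_smul, Complex.norm_real, norm_norm]
    exact x.le_opNorm (h q))

theorem lm_apply (x : H →L[ℂ] H) (h : lp (fun _ : κ => H) 2) (q : κ) : lm x h q = x (h q) := rfl

theorem lm_norm (x : H →L[ℂ] H) : ‖(lm x : lp (fun _ : κ => H) 2 →L[ℂ] lp (fun _ : κ => H) 2)‖ ≤ ‖x‖ :=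
  LinearMap.mkContinuous_norm_le _ (norm_nonneg _) _

theorem lm_inner (x : H →L[ℂ] H) (u v : lp (fun _ : κ => H) 2) :
    ⟪lm (star x) u, v⟫_ℂ = ⟪u, lm x v⟫_ℂ := by
  rw [lp.inner_eq_tsum, lp.inner_eq_tsum]
  refine tsum_congr fun q => ?_
  rw [lm_apply, lm_apply, ContinuousLinearMap.star_eq_adjoint,
    ContinuousLinearMap.adjoint_inner_left]

open Classical in
/-- the rank one elements -/
def th (b : HilbertBasis κ ℂ H) (p q : κ) : lp (fun _ : κ => H) 2 := lp.single 2 q (b p)

open Classical in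
theorem lm_single (x : H →L[ℂ] H) (q : κ) (v : H) :
    lm x (lp.single 2 q v : lp (fun _ : κ => H) 2) = lp.single 2 q (x v) := by
  apply lp.ext
  funext q'
  rw [lm_apply]
  by_cases hq : q' = q
  · subst hq
    rw [lp.single_apply_self, lp.single_apply_self]
  · rw [lp.single_apply_ne _ _ _ hq, lp.single_apply_ne _ _ _ hq, map_zero]

theorem th_inner (b : HilbertBasis κ ℂ H) (p q : κ) (h : lp (fun _ : κ => H) 2) :
    ⟪th b p q, h⟫_ℂ = ⟪b p, h q⟫_ℂ := by
  classical
  unfold th
  rw [lp.inner_single_left]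

theorem th_ext (b : HilbertBasis κ ℂ H) (u v : lp (fun _ : κ => H) 2)
    (h : ∀ p q, ⟪th b p q, u⟫_ℂ = ⟪th b p q, v⟫_ℂ) : u = v := by
  apply lp.ext
  funext q
  apply b.repr.injective
  apply lp.ext
  funext p
  rw [b.repr_apply_apply, b.repr_apply_apply, ← th_inner, ← th_inner]
  exact h p q

theorem b_inner (b : HilbertBasis κ ℂ H) [DecidableEq κ] (p p' : κ) :
    ⟪b p, b p'⟫_ℂ = if p = p' then 1 else 0 := by
  have := orthonormal_iff_ite.1 b.orthonormal p p'
  exact this

theorem th_orth (b : HilbertBasis κ ℂ H) : Orthonormal ℂ (fun i : κ × κ => th b i.1 i.2) := by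
  classical
  rw [orthonormal_iff_ite]
  intro i j
  rw [th_inner]
  unfold th
  by_cases h2 : i.2 = j.2
  · rw [h2, lp.single_apply_self, b_inner]
    refine if_congr ?_ rfl rfl
    rw [Prod.ext_iff]
    exact ⟨fun h => ⟨h, h2⟩, fun h => h.1⟩
  · rw [lp.single_apply_ne _ _ _ h2, inner_zero_right, if_neg]
    intro h
    exact h2 (congrArg Prod.snd h)

theorem th_orth' (b : HilbertBasis κ ℂ H) : Orthonormal ℂ (fun i : κ × κ => th b i.2 i.1) :=
  (th_orth b).comp Prod.swap Prod.swap_injective

theorem th_perp (b : HilbertBasis κ ℂ H) :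
    (Submodule.span ℂ (Set.range fun i : κ × κ => th b i.1 i.2))ᗮ = ⊥ := by
  rw [Submodule.eq_bot_iff]
  intro u hu
  apply th_ext b
  intro p q
  rw [inner_zero_right]
  have hm : th b p q ∈ Submodule.span ℂ (Set.range fun i : κ × κ => th b i.1 i.2) :=
    Submodule.subset_span ⟨(p, q), rfl⟩
  exact Submodule.inner_right_of_mem_orthogonal hm hu

theorem th_perp' (b : HilbertBasis κ ℂ H) :
    (Submodule.span ℂ (Set.range fun i : κ × κ => th b i.2 i.1))ᗮ = ⊥ := by
  rw [Submodule.eq_bot_iff]
  intro u hu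
  apply th_ext b
  intro p q
  rw [inner_zero_right]
  have hm : th b p q ∈ Submodule.span ℂ (Set.range fun i : κ × κ => th b i.2 i.1) :=
    Submodule.subset_span ⟨(q, p), rfl⟩
  exact Submodule.inner_right_of_mem_orthogonal hm hu

/-- the Hilbert basis -/
def BB (b : HilbertBasis κ ℂ H) : HilbertBasis (κ × κ) ℂ (lp (fun _ : κ => H) 2) :=
  HilbertBasis.mkOfOrthogonalEqBot (th_orth b) (th_perp b)

/-- the swapped Hilbert basis -/
def BB' (b : HilbertBasis κ ℂ H) : HilbertBasis (κ × κ) ℂ (lp (fun _ : κ => H) 2) :=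
  HilbertBasis.mkOfOrthogonalEqBot (th_orth' b) (th_perp' b)

theorem BB_apply (b : HilbertBasis κ ℂ H) (i : κ × κ) : BB b i = th b i.1 i.2 := by
  unfold BB
  rw [HilbertBasis.coe_mkOfOrthogonalEqBot]

theorem BB'_apply (b : HilbertBasis κ ℂ H) (i : κ × κ) : BB' b i = th b i.2 i.1 := by
  unfold BB'
  rw [HilbertBasis.coe_mkOfOrthogonalEqBot]

/-- the conjugation -/
def J (b : HilbertBasis κ ℂ H) (h : lp (fun _ : κ => H) 2) : lp (fun _ : κ => H) 2 :=
  (BB' b).repr.symm (star ((BB b).repr h))

theorem th_J (b : HilbertBasis κ ℂ H) (h : lp (fun _ : κ => H) 2) (p q : κ) :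
    ⟪th b q p, J b h⟫_ℂ = conj ⟪th b p q, h⟫_ℂ := by
  have h1 := (BB' b).repr_apply_apply (J b h) (p, q)
  have h2 := (BB b).repr_apply_apply h (p, q)
  rw [BB'_apply] at h1
  rw [BB_apply] at h2
  rw [← h1, ← h2]
  unfold J
  rw [LinearIsometryEquiv.apply_symm_apply, lp.star_apply]
  rfl

theorem J_add (b : HilbertBasis κ ℂ H) (u v : lp (fun _ : κ => H) 2) :
    J b (u + v) = J b u + J b v := by
  unfold J
  rw [map_add, star_add, map_add]

theorem J_smul (b : HilbertBasis κ ℂ H) (c : ℂ) (u : lp (fun _ : κ => H) 2) :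
    J b (c • u) = conj c • J b u := by
  unfold J
  rw [map_smul, star_smul, map_smul]
  rfl

theorem J_J (b : HilbertBasis κ ℂ H) (u : lp (fun _ : κ => H) 2) : J b (J b u) = u := by
  apply th_ext b
  intro p q
  rw [th_J, th_J, Complex.conj_conj]

theorem J_norm (b : HilbertBasis κ ℂ H) (u : lp (fun _ : κ => H) 2) : ‖J b u‖ = ‖u‖ := by
  unfold J
  rw [LinearIsometryEquiv.norm_map, norm_star, LinearIsometryEquiv.norm_map]

theorem J_inner (b : HilbertBasis κ ℂ H) (u v : lp (fun _ : κ => H) 2) :
    ⟪J b u, J b v⟫_ℂ = ⟪v, u⟫_ℂ := by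
  have h1 : ⟪v, u⟫_ℂ = ⟪(BB b).repr v, (BB b).repr u⟫_ℂ := (LinearIsometryEquiv.inner_map_map _ _ _).symm
  rw [h1]
  unfold J
  rw [LinearIsometryEquiv.inner_map_map, lp.inner_eq_tsum, lp.inner_eq_tsum]
  refine tsum_congr fun i => ?_
  rw [lp.star_apply, lp.star_apply]
  simp only [RCLike.inner_apply, RCLike.star_def, Complex.conj_conj]
  ring

/-- right action -/
def rm (b : HilbertBasis κ ℂ H) (y : H →L[ℂ] H) :
    lp (fun _ : κ => H) 2 →L[ℂ] lp (fun _ : κ => H) 2 :=
  LinearMap.mkContinuous
    { toFun := fun h => J b (lm y (J b h))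
      map_add' := fun h h' => by rw [J_add, map_add, J_add]
      map_smul' := fun c h => by
        rw [J_smul, map_smul, J_smul, Complex.conj_conj, RingHom.id_apply] } ‖y‖ (by
    intro h
    change ‖J b (lm y (J b h))‖ ≤ _
    rw [J_norm]
    refine ((lm y).le_opNorm _).trans ?_
    rw [J_norm]
    exact mul_le_mul_of_nonneg_right (lm_norm y) (norm_nonneg _))

theorem rm_apply (b : HilbertBasis κ ℂ H) (y : H →L[ℂ] H) (h : lp (fun _ : κ => H) 2) :
    rm b y h = J b (lm y (J b h)) := rfl

open Classical in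
theorem J_single (b : HilbertBasis κ ℂ H) (q : κ) (v : H) (p : κ) :
    (J b (lp.single 2 q v : lp (fun _ : κ => H) 2)) p = conj ⟪b p, v⟫_ℂ • b q := by
  apply b.repr.injective
  apply lp.ext
  funext p'
  rw [b.repr_apply_apply, b.repr_apply_apply, ← th_inner, th_J, th_inner, inner_smul_right, b_inner]
  by_cases h : p' = q
  · subst h
    rw [lp.single_apply_self, if_pos rfl, mul_one]
  · rw [lp.single_apply_ne _ _ _ h, if_neg h, inner_zero_right, map_zero, mul_zero]

theorem J_th (b : HilbertBasis κ ℂ H) (p q : κ) : J b (th b p q) = th b q p := by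
  classical
  apply lp.ext
  funext p'
  unfold th
  rw [J_single, b_inner]
  by_cases h : p' = p
  · subst h
    rw [lp.single_apply_self, if_pos rfl, map_one, one_smul]
  · rw [lp.single_apply_ne _ _ _ h, if_neg h, map_zero, zero_smul]

theorem key1 (b : HilbertBasis κ ℂ H) (x y : H →L[ℂ] H) (p q p' q' : κ) :
    ⟪th b p' q', lm x (rm b y (th b p q))⟫_ℂ = ⟪b p', x (b p)⟫_ℂ * conj ⟪b q', y (b q)⟫_ℂ := by
  classical
  rw [th_inner, lm_apply, rm_apply, J_th]
  have h1 : lm y (th b q p) = lp.single 2 p (y (b q)) := by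
    unfold th
    rw [lm_single]
  rw [h1, J_single, map_smul, inner_smul_right]
  ring

theorem key2 (b : HilbertBasis κ ℂ H) (x y : H →L[ℂ] H) (p q p' q' : κ) :
    ⟪th b p' q', rm b y (lm x (th b p q))⟫_ℂ = ⟪b p', x (b p)⟫_ℂ * conj ⟪b q', y (b q)⟫_ℂ := by
  classical
  rw [rm_apply, th_J, th_inner, lm_apply]
  have h1 : lm x (th b p q) = lp.single 2 q (x (b p)) := by
    unfold th
    rw [lm_single]
  rw [h1, J_single, map_smul, inner_smul_right, map_mul, Complex.conj_conj]

end P_minrepaux

open P_minrepaux in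
theorem prove_P_minrep : P_minrep := by
  intro H _ _ _
  obtain ⟨w, b, hb⟩ := exists_hilbertBasis ℂ H
  refine ⟨w, b, lp (fun _ : w => H) 2, inferInstance, inferInstance, inferInstance, lm, rm b, th b,
    ?_⟩
  have hstar : ∀ x : H →L[ℂ] H, (lm (star x) : lp (fun _ : w => H) 2 →L[ℂ] lp (fun _ : w => H) 2)
      = star (lm x) := by
    intro x
    rw [ContinuousLinearMap.star_eq_adjoint (lm x), ContinuousLinearMap.eq_adjoint_iff]
    exact fun u v => lm_inner x u v
  refine
    { l_add := fun x y => by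
        ext1 h
        apply lp.ext
        funext q
        rfl
      l_smul := fun c x => by
        ext1 h
        apply lp.ext
        funext q
        rfl
      l_mul := fun x y => by
        ext1 h
        apply lp.ext
        funext q
        rfl
      l_star := hstar
      l_one := by
        ext1 h
        apply lp.ext
        funext q
        rfl
      l_norm := lm_norm
      r_add := fun x y => by
        ext1 h
        change J b (lm (x + y) (J b h)) = J b (lm x (J b h)) + J b (lm y (J b h))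
        rw [← J_add]
        rfl
      r_smul := fun c x => by
        ext1 h
        change J b (lm (c • x) (J b h)) = conj c • J b (lm x (J b h))
        rw [← J_smul]
        rfl
      r_mul := fun x y => by
        ext1 h
        change J b (lm (x * y) (J b h)) = J b (lm x (J b (J b (lm y (J b h)))))
        rw [J_J]
        rfl
      r_star := fun x => by
        rw [ContinuousLinearMap.star_eq_adjoint (rm b x), ContinuousLinearMap.eq_adjoint_iff]
        intro u v
        rw [rm_apply, rm_apply]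
        have h1 : ⟪J b (lm (star x) (J b u)), v⟫_ℂ = ⟪J b (lm (star x) (J b u)), J b (J b v)⟫_ℂ := by
          rw [J_J]
        have h2 : ⟪u, J b (lm x (J b v))⟫_ℂ = ⟪J b (J b u), J b (lm x (J b v))⟫_ℂ := by
          rw [J_J]
        rw [h1, h2, J_inner, J_inner]
        have h3 := lm_inner (star x) (J b v) (J b u)
        rw [star_star] at h3
        exact h3.symm
      r_one := by
        ext1 h
        change J b (J b h) = h
        rw [J_J]
      r_norm := fun x => LinearMap.mkContinuous_norm_le _ (norm_nonneg _) _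
      comm := fun x y => ?_
      inner := fun x y p q p' q' => key1 b x y p q p' q' }
  -- commutation
  have hd : Dense ((Submodule.span ℂ (Set.range (BB b)) : Submodule ℂ (lp (fun _ : w => H) 2)) :
      Set (lp (fun _ : w => H) 2)) := by
    exact (Submodule.dense_iff_topologicalClosure_eq_top).2 (BB b).dense_span
  have hs : Set.EqOn (lm x * rm b y : lp (fun _ : w => H) 2 →L[ℂ] lp (fun _ : w => H) 2)
      (rm b y * lm x : lp (fun _ : w => H) 2 →L[ℂ] lp (fun _ : w => H) 2)
      (Set.range (BB b)) := by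
    rintro _ ⟨⟨p, q⟩, rfl⟩
    rw [BB_apply]
    apply th_ext b
    intro p' q'
    exact (key1 b x y p q p' q').trans (key2 b x y p q p' q').symm
  exact ContinuousLinearMap.ext_on hd hs

end H68R2.BP
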